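import Pool.Agent.Helper71.BM.Basic

set_option autoImplicit false

namespace Pool.Agent.Helper71.BM

open Finset ErdPos

section blk

variable {V : Type} [DecidableEq V] {G : SimpleGraph V}

/-- a part of a row -/
def blk_seg (R : ℕ → ℕ → List V) (a i n : ℕ) : List V := ((List.range' i n).map (R a)).flatten

omit [DecidableEq V] in
lemma blk_mem_seg {R : ℕ → ℕ → List V} {a i n : ℕ} {v : V} :
    v ∈ blk_seg R a i n ↔ ∃ j, i ≤ j ∧ j < i + n ∧ v ∈ R a j := by
  unfold blk_seg
  rw [List.mem_flatten]
  constructor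
  · rintro ⟨l, hl, hv⟩
    rw [List.mem_map] at hl
    obtain ⟨j, hj, rfl⟩ := hl
    rw [List.mem_range'_1] at hj
    exact ⟨j, hj.1, hj.2, hv⟩
  · rintro ⟨j, h1, h2, hv⟩
    refine ⟨R a j, List.mem_map.2 ⟨j, List.mem_range'_1.2 ⟨h1, h2⟩, rfl⟩, hv⟩

omit [DecidableEq V] in
lemma blk_seg_part {R : ℕ → ℕ → List V} {a i n d : ℕ} (h : i + n ≤ d) :
    blk_seg R a i n <:+: row R d a := by
  refine ⟨blk_seg R a 0 i, blk_seg R a (i + n) (d - (i + n)), ?_⟩
  unfold blk_seg row
  rw [← List.flatten_append, ← List.flatten_append, ← List.map_append, ← List.map_append]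
  have h1 : List.range' 0 i ++ List.range' i n = List.range' 0 (i + n) := by
    have := List.range'_append_1 (s := 0) (m := i) (n := n)
    rw [zero_add] at this
    exact this
  have h2 : List.range' 0 (i + n) ++ List.range' (i + n) (d - (i + n)) = List.range' 0 d := by
    have := List.range'_append_1 (s := 0) (m := i + n) (n := d - (i + n))
    rw [zero_add] at this
    rw [this]
    congr 1
    omega
  rw [h1, h2, List.range_eq_range']

omit [DecidableEq V] in
lemma blk_mem_row {R : ℕ → ℕ → List V} {a d : ℕ} {v : V} :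
    v ∈ row R d a ↔ ∃ j, j < d ∧ v ∈ R a j := by
  unfold row
  rw [List.mem_flatten]
  constructor
  · rintro ⟨l, hl, hv⟩
    rw [List.mem_map] at hl
    obtain ⟨j, hj, rfl⟩ := hl
    exact ⟨j, List.mem_range.1 hj, hv⟩
  · rintro ⟨j, h2, hv⟩
    exact ⟨R a j, List.mem_map.2 ⟨j, List.mem_range.2 h2, rfl⟩, hv⟩

lemma blk_seg_conn {h d : ℕ} {R : ℕ → ℕ → List V} {U : ℕ → Finset V} (hw : Web G h d R U)
    {a i n : ℕ} (ha : a < h) (hn : 1 ≤ n) (hd : i + n ≤ d) :
    Conn G (blk_seg R a i n).toFinset := by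
  apply conn_of_chain
  · intro h0
    have h1 := hw.ne a ha i (by omega)
    obtain ⟨x, hx⟩ := List.exists_mem_of_ne_nil _ h1
    have : x ∈ blk_seg R a i n := blk_mem_seg.2 ⟨i, le_refl _, by omega, hx⟩
    rw [h0] at this
    exact absurd this List.not_mem_nil
  · obtain ⟨s, t, h⟩ := blk_seg_part (R := R) (a := a) hd
    have h1 := hw.chain a ha
    rw [← h] at h1
    exact h1.left_of_append.right_of_append

/-- column `j` of the first `n` rows after row 0 -/
def blk_col (R Q : ℕ → ℕ → List V) (n j : ℕ) : Finset V :=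
  (range n).biUnion (fun s => (R (s + 1) j).toFinset) ∪
    (range (n - 1)).biUnion (fun s => (Q (s + 1) j).toFinset)

lemma blk_mem_col {R Q : ℕ → ℕ → List V} {n j : ℕ} {v : V} :
    v ∈ blk_col R Q n j ↔ (∃ s < n, v ∈ R (s + 1) j) ∨ (∃ s < n - 1, v ∈ Q (s + 1) j) := by
  unfold blk_col
  simp only [mem_union, mem_biUnion, mem_range, List.mem_toFinset]

lemma blk_mem_wset {R Q : ℕ → ℕ → List V} {r j0 l : ℕ} {v : V} :
    v ∈ wset R Q r j0 l ↔ ∃ j < l, v ∈ blk_col R Q r (j0 + j) := by
  unfold wset
  rw [mem_biUnion]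
  simp only [mem_range]
  rfl

lemma blk_col_conn {h d : ℕ} {R Q : ℕ → ℕ → List V} {U : ℕ → Finset V} (hl : Lad G h d R U Q)
    {j : ℕ} (hj : j < d) : ∀ n, 1 ≤ n → n < h → Conn G (blk_col R Q n j) := by
  intro n
  induction n with
  | zero => intro h0; omega
  | succ n ih =>
    intro _ hn
    rcases Nat.eq_zero_or_pos n with rfl | hpos
    · have h1 : blk_col R Q (0 + 1) j = (blk_seg R 1 j 1).toFinset := by
        ext v
        rw [blk_mem_col, List.mem_toFinset, blk_mem_seg]
        constructor
        · rintro (⟨s, hs, hv⟩ | ⟨s, hs, _⟩)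
          · have : s = 0 := by omega
            subst this
            exact ⟨j, le_refl _, by omega, hv⟩
          · omega
        · rintro ⟨i, h1, h2, hv⟩
          have : i = j := by omega
          subst this
          exact Or.inl ⟨0, by omega, hv⟩
      rw [h1]
      exact blk_seg_conn hl.web hn (le_refl _) (by omega)
    · have h1 := ih hpos (by omega)
      obtain ⟨x, hx, y, hy, hp⟩ := hl.qc n (by omega) j hj
      have hxm : x ∈ blk_col R Q n j := by
        rw [blk_mem_col]
        refine Or.inl ⟨n - 1, by omega, ?_⟩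
        rwa [Nat.sub_add_cancel hpos]
      have h2 := h1.union_of_mem hp.conn hxm (List.mem_toFinset.2 hp.head_mem)
      have h3 : Conn G (blk_seg R (n + 1) j 1).toFinset :=
        blk_seg_conn hl.web hn (le_refl _) (by omega)
      have hym : y ∈ blk_seg R (n + 1) j 1 := blk_mem_seg.2 ⟨j, le_refl _, by omega, hy⟩
      have h4 := h2.union_of_mem h3 (x := y)
        (mem_union_right _ (List.mem_toFinset.2 hp.last_mem)) (List.mem_toFinset.2 hym)
      have h5 : blk_col R Q n j ∪ (x :: Q n j ++ [y]).toFinset ∪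
          (blk_seg R (n + 1) j 1).toFinset = blk_col R Q (n + 1) j := by
        ext v
        simp only [mem_union, blk_mem_col, List.mem_toFinset, blk_mem_seg]
        constructor
        · rintro (((⟨s, hs, hv⟩ | ⟨s, hs, hv⟩) | hv) | ⟨i, h6, h7, hv⟩)
          · exact Or.inl ⟨s, by omega, hv⟩
          · exact Or.inr ⟨s, by omega, hv⟩
          · simp only [List.cons_append, List.mem_cons, List.mem_append, List.not_mem_nil,
              or_false] at hv
            rcases hv with rfl | hv | rfl
            · refine Or.inl ⟨n - 1, by omega, ?_⟩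
              rwa [Nat.sub_add_cancel hpos]
            · refine Or.inr ⟨n - 1, by omega, ?_⟩
              rwa [Nat.sub_add_cancel hpos]
            · exact Or.inl ⟨n, by omega, hy⟩
          · have : i = j := by omega
            subst this
            exact Or.inl ⟨n, by omega, hv⟩
        · rintro (⟨s, hs, hv⟩ | ⟨s, hs, hv⟩)
          · rcases Nat.lt_or_ge s n with h6 | h6
            · exact Or.inl (Or.inl (Or.inl ⟨s, h6, hv⟩))
            · have : s = n := by omega
              subst this
              exact Or.inr ⟨j, le_refl _, by omega, hv⟩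
          · rcases Nat.lt_or_ge s (n - 1) with h6 | h6
            · exact Or.inl (Or.inl (Or.inr ⟨s, h6, hv⟩))
            · have : s = n - 1 := by omega
              subst this
              rw [Nat.sub_add_cancel hpos] at hv
              refine Or.inl (Or.inr ?_)
              simp [hv]
      rw [h5] at h4
      exact h4

lemma blk_wset_conn {d r : ℕ} {R Q : ℕ → ℕ → List V} {U : ℕ → Finset V}
    (hl : Lad G (r + 1) d R U Q) (hr : 1 ≤ r) {j0 : ℕ} :
    ∀ l, 1 ≤ l → j0 + l ≤ d → Conn G (wset R Q r j0 l) := by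
  intro l
  induction l with
  | zero => intro h0; omega
  | succ l ih =>
    intro _ hd
    have hcol := blk_col_conn hl (j := j0 + l) (by omega) r hr (by omega)
    rcases Nat.eq_zero_or_pos l with rfl | hpos
    · have h1 : wset R Q r j0 (0 + 1) = blk_col R Q r (j0 + 0) := by
        ext v
        rw [blk_mem_wset]
        constructor
        · rintro ⟨j, hj, hv⟩
          have : j = 0 := by omega
          subst this
          exact hv
        · intro hv
          exact ⟨0, by omega, hv⟩
      rw [h1]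
      exact hcol
    · have h1 := ih hpos (by omega)
      have h2 : Conn G (blk_seg R 1 (j0 + (l - 1)) 2).toFinset :=
        blk_seg_conn hl.web (by omega) (by omega) (by omega)
      have hne : ∀ j, j < d → ∃ x, x ∈ R 1 j := fun j hj =>
        List.exists_mem_of_ne_nil _ (hl.web.ne 1 (by omega) j hj)
      obtain ⟨x, hx⟩ := hne (j0 + (l - 1)) (by omega)
      obtain ⟨y, hy⟩ := hne (j0 + l) (by omega)
      have h3 := h1.union_of_mem h2 (x := x)
        (blk_mem_wset.2 ⟨l - 1, by omega, blk_mem_col.2 (Or.inl ⟨0, by omega, hx⟩)⟩)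
        (List.mem_toFinset.2 (blk_mem_seg.2 ⟨_, le_refl _, by omega, hx⟩))
      have h4 := h3.union_of_mem hcol (x := y)
        (mem_union_right _ (List.mem_toFinset.2 (blk_mem_seg.2 ⟨_, by omega, by omega, hy⟩)))
        (blk_mem_col.2 (Or.inl ⟨0, by omega, hy⟩))
      have h5 : wset R Q r j0 l ∪ (blk_seg R 1 (j0 + (l - 1)) 2).toFinset ∪
          blk_col R Q r (j0 + l) = wset R Q r j0 (l + 1) := by
        ext v
        simp only [mem_union, blk_mem_wset, List.mem_toFinset, blk_mem_seg]
        constructor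
        · rintro ((⟨j, hj, hv⟩ | ⟨i, h6, h7, hv⟩) | hv)
          · exact ⟨j, by omega, hv⟩
          · refine ⟨i - j0, by omega, ?_⟩
            rw [Nat.add_sub_cancel' (by omega : j0 ≤ i)]
            exact blk_mem_col.2 (Or.inl ⟨0, by omega, hv⟩)
          · exact ⟨l, by omega, hv⟩
        · rintro ⟨j, hj, hv⟩
          rcases Nat.lt_or_ge j l with h6 | h6
          · exact Or.inl (Or.inl ⟨j, h6, hv⟩)
          · have : j = l := by omega
            subst this
            exact Or.inr hv
      rw [h5] at h4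
      exact h4

/-- the vertices of `wset` are in the regions of its columns -/
lemma blk_wset_U {d r : ℕ} {R Q : ℕ → ℕ → List V} {U : ℕ → Finset V}
    (hl : Lad G (r + 1) d R U Q) {j0 l : ℕ} (hd : j0 + l ≤ d) {v : V}
    (hv : v ∈ wset R Q r j0 l) : ∃ j, j0 ≤ j ∧ j < j0 + l ∧ v ∈ U j := by
  rw [blk_mem_wset] at hv
  obtain ⟨j, hj, hv⟩ := hv
  rw [blk_mem_col] at hv
  refine ⟨j0 + j, by omega, by omega, ?_⟩
  rcases hv with ⟨s, hs, hv⟩ | ⟨s, hs, hv⟩
  · exact hl.web.mem (s + 1) (by omega) (j0 + j) (by omega) v hv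
  · exact hl.qu (s + 1) (by omega) (j0 + j) (by omega) v hv

lemma blk_card {ι : Type} (I : Finset ι) (f : ι → Finset V) (S : Finset V)
    (hd : ∀ i ∈ I, ∀ j ∈ I, i ≠ j → Disjoint (f i) (f j)) (I' : Finset ι) (hI : I' ⊆ I)
    (h : ∀ i ∈ I', ¬ Disjoint (f i) S) : I'.card ≤ S.card := by
  classical
  have h1 : (I'.biUnion (fun i => f i ∩ S)).card = ∑ i ∈ I', (f i ∩ S).card := by
    apply card_biUnion
    intro i hi j hj hij
    exact (hd i (hI hi) j (hI hj) hij).mono inter_subset_left inter_subset_left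
  have h2 : (I'.biUnion (fun i => f i ∩ S)).card ≤ S.card := by
    apply card_le_card
    intro x hx
    rw [mem_biUnion] at hx
    obtain ⟨i, _, hx⟩ := hx
    exact (mem_inter.1 hx).2
  have h3 : ∑ i ∈ I', 1 ≤ ∑ i ∈ I', (f i ∩ S).card := by
    apply sum_le_sum
    intro i hi
    have h4 := h i hi
    rw [not_disjoint_iff] at h4
    obtain ⟨x, hx1, hx2⟩ := h4
    exact card_pos.2 ⟨x, mem_inter.2 ⟨hx1, hx2⟩⟩
  rw [sum_const, smul_eq_mul, mul_one] at h3
  omega

lemma blk_pair (N : ℕ) (A A' : ℕ → Finset ℕ) (hA : ∀ b < 4 * N + 2, (A b).card ≤ N)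
    (hA' : ∀ b < 4 * N + 2, (A' b).card ≤ N) :
    ∃ b' b, b' < b ∧ b < 4 * N + 2 ∧ b' ∉ A b ∧ b ∉ A' b' := by
  classical
  by_contra hc
  push Not at hc
  set n := 4 * N + 2 with hn
  have h1 : ∀ b ∈ range n, b ≤ N + ∑ b' ∈ range n, if b ∈ A' b' then 1 else 0 := by
    intro b hb
    rw [mem_range] at hb
    have h2 : range b ⊆ A b ∪ (range n).filter (fun b' => b ∈ A' b') := by
      intro b' hb'
      rw [mem_range] at hb'
      by_cases h : b' ∈ A b
      · exact mem_union_left _ h
      · exact mem_union_right _ (mem_filter.2 ⟨mem_range.2 (by omega), hc b' b hb' hb h⟩)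
    have h3 := (card_le_card h2).trans (card_union_le _ _)
    rw [card_range, card_filter] at h3
    have := hA b hb
    omega
  have h2 := sum_le_sum h1
  rw [sum_add_distrib, sum_const, card_range, smul_eq_mul, sum_comm] at h2
  have h3 : ∑ b' ∈ range n, ∑ b ∈ range n, (if b ∈ A' b' then 1 else 0) ≤
      ∑ b' ∈ range n, N := by
    apply sum_le_sum
    intro b' hb'
    rw [← card_filter]
    refine le_trans (card_le_card ?_) (hA' b' (mem_range.1 hb'))
    intro b hb
    exact (mem_filter.1 hb).2
  rw [sum_const, card_range, smul_eq_mul] at h3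
  have h4 := sum_range_id_mul_two n
  have h5 : n - 1 = 4 * N + 1 := by omega
  rw [h5] at h4
  have h6 : n * (4 * N + 1) ≤ n * (4 * N) := by
    calc n * (4 * N + 1) = (∑ i ∈ range n, i) * 2 := h4.symm
      _ ≤ (n * N + n * N) * 2 := by
        apply Nat.mul_le_mul_right
        exact h2.trans (Nat.add_le_add_left h3 _)
      _ = n * (4 * N) := by ring
  have h7 : 0 < n := by omega
  have := Nat.le_of_mul_le_mul_left h6 h7
  omega

end blk

/-- among many disjoint blocks one has terminals attached to the haven -/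
theorem st_BLK : ST_BLK := by
  classical
  intro V _ _ G F N r d K w l R U Q J hH hL hC hr hl hK hJ hJJ
  by_contra hcon
  push Not at hcon
  -- the sets `S b`, `S' b`
  have hS : ∀ b, ∃ S : Finset V, b < 4 * N + 2 → (S.card ≤ N ∧ Disjoint S (wset R Q r (J b) l) ∧
      ∀ i < r, ∀ x, (R (i + 1) (J b - 1)).getLast? = some x →
        x ∉ bt G F univ (S ∪ wset R Q r (J b) l)) := by
    intro b
    by_cases hb : b < 4 * N + 2
    · obtain ⟨S, hS1, hS2⟩ := (hcon b hb).1
      refine ⟨S \ wset R Q r (J b) l, fun _ => ⟨(card_le_card sdiff_subset).trans hS1,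
        sdiff_disjoint, ?_⟩⟩
      intro i hi x hx
      rw [sdiff_union_self_eq_union]
      exact hS2 i hi x hx
    · exact ⟨∅, fun h => absurd h hb⟩
  have hS' : ∀ b, ∃ S : Finset V, b < 4 * N + 2 → (S.card ≤ N ∧ Disjoint S (wset R Q r (J b) l) ∧
      ∀ i < r, ∀ x, (R (i + 1) (J b + l)).head? = some x →
        x ∉ bt G F univ (S ∪ wset R Q r (J b) l)) := by
    intro b
    by_cases hb : b < 4 * N + 2
    · obtain ⟨S, hS1, hS2⟩ := (hcon b hb).2
      refine ⟨S \ wset R Q r (J b) l, fun _ => ⟨(card_le_card sdiff_subset).trans hS1,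
        sdiff_disjoint, ?_⟩⟩
      intro i hi x hx
      rw [sdiff_union_self_eq_union]
      exact hS2 i hi x hx
    · exact ⟨∅, fun h => absurd h hb⟩
  choose S hS using hS
  choose S' hS' using hS'
  set W : ℕ → Finset V := fun b => wset R Q r (J b) l with hW
  have hWU : ∀ b < 4 * N + 2, ∀ v ∈ W b, ∃ j, J b ≤ j ∧ j < J b + l ∧ v ∈ U j := by
    intro b hb v hv
    exact blk_wset_U hL (by have := (hJ b hb).2.1; omega) hv
  have hUd : ∀ i j, i < d → j < d → ∀ v, v ∈ U i → v ∈ U j → i = j := by
    intro i j hi hj v h1 h2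
    by_contra hne
    exact (Finset.disjoint_left.1 (hL.web.udj i hi j hj hne)) h1 h2
  have hWd : ∀ b < 4 * N + 2, ∀ b' < 4 * N + 2, b ≠ b' → Disjoint (W b) (W b') := by
    have key : ∀ b b', b < b' → b' < 4 * N + 2 → Disjoint (W b) (W b') := by
      intro b b' h1 h2
      rw [Finset.disjoint_left]
      intro v hv hv'
      obtain ⟨j, g1, g2, g3⟩ := hWU b (by omega) v hv
      obtain ⟨j', g1', g2', g3'⟩ := hWU b' h2 v hv'
      have h3 := (hJ b (by omega)).2.1
      have h4 := (hJ b' h2).2.1
      have h5 := hUd j j' (by omega) (by omega) v g3 g3'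
      have h6 := hJJ b b' h1 h2
      omega
    intro b hb b' hb' hne
    rcases Nat.lt_or_gt_of_ne hne with h | h
    · exact key b b' h hb'
    · exact (key b' b h hb).symm
  have hWc : ∀ b < 4 * N + 2, Conn G (W b) := by
    intro b hb
    exact blk_wset_conn hL (by omega) l hl (by have := (hJ b hb).2.1; omega)
  -- a good pair
  obtain ⟨b', b, hbb, hb, hA, hA'⟩ := blk_pair N
    (fun b => (range (4 * N + 2)).filter (fun b' => ¬ Disjoint (W b') (S b)))
    (fun b => (range (4 * N + 2)).filter (fun b' => ¬ Disjoint (W b') (S' b)))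
    (by
      intro b hb
      refine (blk_card (range (4 * N + 2)) W (S b) ?_ _ (filter_subset _ _) ?_).trans (hS b hb).1
      · intro i hi j hj hij
        exact hWd i (mem_range.1 hi) j (mem_range.1 hj) hij
      · intro i hi
        exact (mem_filter.1 hi).2)
    (by
      intro b hb
      refine (blk_card (range (4 * N + 2)) W (S' b) ?_ _ (filter_subset _ _) ?_).trans
        (hS' b hb).1
      · intro i hi j hj hij
        exact hWd i (mem_range.1 hi) j (mem_range.1 hj) hij
      · intro i hi
        exact (mem_filter.1 hi).2)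
  have hb' : b' < 4 * N + 2 := by omega
  have hd1 : Disjoint (W b') (S b) := by
    by_contra h
    exact hA (mem_filter.2 ⟨mem_range.2 hb', h⟩)
  have hd2 : Disjoint (W b) (S' b') := by
    by_contra h
    exact hA' (mem_filter.2 ⟨mem_range.2 hb, h⟩)
  obtain ⟨hSc, hSd, hSx⟩ := hS b hb
  obtain ⟨hSc', hSd', hSx'⟩ := hS' b' hb'
  have hJb := hJ b hb
  have hJb' := hJ b' hb'
  have hJbb := hJJ b' b hbb hb
  -- rows avoiding a set
  have hrows : ∀ X : Finset V, ∀ m : ℕ, X.card + m ≤ r → ∃ I : Finset ℕ, I.card = m ∧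
      ∀ a ∈ I, 1 ≤ a ∧ a < r + 1 ∧ ∀ v ∈ row R d a, v ∉ X := by
    intro X m hm
    have h1 : ((Finset.Icc 1 r).filter
        (fun a => ¬ Disjoint (row R d a).toFinset X)).card ≤ X.card := by
      refine blk_card (Finset.Icc 1 r) (fun a => (row R d a).toFinset) X ?_ _
        (filter_subset _ _) ?_
      · intro i hi j hj hij
        rw [mem_Icc] at hi hj
        rw [Finset.disjoint_left]
        intro v hv hv'
        rw [List.mem_toFinset] at hv hv'
        exact hL.web.dj i (by omega) j (by omega) hij hv hv'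
      · intro i hi
        exact (mem_filter.1 hi).2
    have h2 := card_filter_add_card_filter_not (s := Finset.Icc 1 r)
      (fun a => Disjoint (row R d a).toFinset X)
    rw [Nat.card_Icc] at h2
    obtain ⟨I, hI1, hI2⟩ := exists_subset_card_eq (s := (Finset.Icc 1 r).filter
      (fun a => Disjoint (row R d a).toFinset X)) (n := m) (by omega)
    refine ⟨I, hI2, ?_⟩
    intro a ha
    have h3 := mem_filter.1 (hI1 ha)
    rw [mem_Icc] at h3
    refine ⟨h3.1.1, by omega, ?_⟩
    intro v hv
    exact Finset.disjoint_left.1 h3.2 (List.mem_toFinset.2 hv)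
  -- the sets `B1`, `B2`, `B`
  have hWcard : ∀ c < 4 * N + 2, (W c).card ≤ w := fun c hc => (hJ c hc).2.2
  have hB1 : IsBt G F univ (S b ∪ W b) (bt G F univ (S b ∪ W b)) := by
    apply hH.isBt
    have := card_union_le (S b) (W b)
    have := hWcard b hb
    omega
  have hB2 : IsBt G F univ (S' b' ∪ W b') (bt G F univ (S' b' ∪ W b')) := by
    apply hH.isBt
    have := card_union_le (S' b') (W b')
    have := hWcard b' hb'
    omega
  set B1 := bt G F univ (S b ∪ W b) with hB1d
  set B2 := bt G F univ (S' b' ∪ W b') with hB2d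
  -- `W b'` avoids `B1`
  have hW1 : ∀ v ∈ W b', v ∉ B1 := by
    intro v hv hvB
    obtain ⟨I, hI, hI2⟩ := hrows (S b) 1 (by omega)
    obtain ⟨a, ha⟩ := card_pos.1 (by omega : 0 < I.card)
    obtain ⟨ha1, ha2, ha3⟩ := hI2 a ha
    set n := J b - J b' with hn
    have hT : Conn G (blk_seg R a (J b') n).toFinset :=
      blk_seg_conn hL.web ha2 (by omega) (by omega)
    obtain ⟨x, hx⟩ : ∃ x, (R a (J b - 1)).getLast? = some x := by
      have h1 := hL.web.ne a ha2 (J b - 1) (by omega)
      exact ⟨_, List.getLast?_eq_some_getLast h1⟩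
    have hxm : x ∈ R a (J b - 1) := List.mem_of_getLast? hx
    obtain ⟨y, hy⟩ := List.exists_mem_of_ne_nil _ (hL.web.ne a ha2 (J b') (by omega))
    have hyW : y ∈ W b' := by
      apply blk_mem_wset.2
      refine ⟨0, by omega, blk_mem_col.2 (Or.inl ⟨a - 1, by omega, ?_⟩)⟩
      rw [Nat.sub_add_cancel ha1, add_zero]
      exact hy
    have hyT : y ∈ (blk_seg R a (J b') n).toFinset :=
      List.mem_toFinset.2 (blk_mem_seg.2 ⟨J b', le_refl _, by omega, hy⟩)
    have hZ := (hWc b' hb').union_of_mem hT hyW hyT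
    have hsub : W b' ∪ (blk_seg R a (J b') n).toFinset ⊆ univ \ (S b ∪ W b) := by
      intro z hz
      rw [mem_sdiff, mem_union, not_or]
      refine ⟨mem_univ _, ?_, ?_⟩
      · rcases mem_union.1 hz with hz | hz
        · exact Finset.disjoint_left.1 hd1 hz
        · rw [List.mem_toFinset, blk_mem_seg] at hz
          obtain ⟨j, h1, h2, hz⟩ := hz
          exact ha3 z (blk_mem_row.2 ⟨j, by omega, hz⟩)
      · rcases mem_union.1 hz with hz | hz
        · exact Finset.disjoint_left.1 (hWd b' hb' b hb (by omega)) hz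
        · rw [List.mem_toFinset, blk_mem_seg] at hz
          obtain ⟨j, h1, h2, hz⟩ := hz
          intro hzW
          obtain ⟨j', g1, g2, g3⟩ := hWU b hb z hzW
          have := hUd j j' (by omega) (by omega) z
            (hL.web.mem a ha2 j (by omega) z hz) g3
          omega
    have h1 := hB1.subset_of_mem hZ hsub (mem_union_left _ hv) hvB
    have h2 : x ∈ B1 := h1 (mem_union_right _ (List.mem_toFinset.2
      (blk_mem_seg.2 ⟨J b - 1, by omega, by omega, hxm⟩)))
    refine hSx (a - 1) (by omega) x ?_ h2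
    rw [Nat.sub_add_cancel ha1]
    exact hx
  -- `W b` avoids `B2`
  have hW2 : ∀ v ∈ W b, v ∉ B2 := by
    intro v hv hvB
    obtain ⟨I, hI, hI2⟩ := hrows (S' b') 1 (by omega)
    obtain ⟨a, ha⟩ := card_pos.1 (by omega : 0 < I.card)
    obtain ⟨ha1, ha2, ha3⟩ := hI2 a ha
    set n := J b - (J b' + l) + 1 with hn
    have hT : Conn G (blk_seg R a (J b' + l) n).toFinset :=
      blk_seg_conn hL.web ha2 (by omega) (by omega)
    obtain ⟨x, hx⟩ : ∃ x, (R a (J b' + l)).head? = some x := by
      have h1 := hL.web.ne a ha2 (J b' + l) (by omega)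
      exact ⟨_, List.head?_eq_some_head h1⟩
    have hxm : x ∈ R a (J b' + l) := List.mem_of_head? hx
    obtain ⟨y, hy⟩ := List.exists_mem_of_ne_nil _ (hL.web.ne a ha2 (J b) (by omega))
    have hyW : y ∈ W b := by
      apply blk_mem_wset.2
      refine ⟨0, by omega, blk_mem_col.2 (Or.inl ⟨a - 1, by omega, ?_⟩)⟩
      rw [Nat.sub_add_cancel ha1, add_zero]
      exact hy
    have hyT : y ∈ (blk_seg R a (J b' + l) n).toFinset :=
      List.mem_toFinset.2 (blk_mem_seg.2 ⟨J b, by omega, by omega, hy⟩)
    have hZ := (hWc b hb).union_of_mem hT hyW hyT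
    have hsub : W b ∪ (blk_seg R a (J b' + l) n).toFinset ⊆ univ \ (S' b' ∪ W b') := by
      intro z hz
      rw [mem_sdiff, mem_union, not_or]
      refine ⟨mem_univ _, ?_, ?_⟩
      · rcases mem_union.1 hz with hz | hz
        · exact Finset.disjoint_left.1 hd2 hz
        · rw [List.mem_toFinset, blk_mem_seg] at hz
          obtain ⟨j, h1, h2, hz⟩ := hz
          exact ha3 z (blk_mem_row.2 ⟨j, by omega, hz⟩)
      · rcases mem_union.1 hz with hz | hz
        · exact Finset.disjoint_left.1 (hWd b hb b' hb' (by omega)) hz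
        · rw [List.mem_toFinset, blk_mem_seg] at hz
          obtain ⟨j, h1, h2, hz⟩ := hz
          intro hzW
          obtain ⟨j', g1, g2, g3⟩ := hWU b' hb' z hzW
          have := hUd j j' (by omega) (by omega) z
            (hL.web.mem a ha2 j (by omega) z hz) g3
          omega
    have h1 := hB2.subset_of_mem hZ hsub (mem_union_left _ hv) hvB
    have h2 : x ∈ B2 := h1 (mem_union_right _ (List.mem_toFinset.2
      (blk_mem_seg.2 ⟨J b' + l, by omega, by omega, hxm⟩)))
    refine hSx' (a - 1) (by omega) x ?_ h2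
    rw [Nat.sub_add_cancel ha1]
    exact hx
  -- the set `B`
  set Y : Finset V := (S b ∪ W b) ∪ (S' b' ∪ W b') with hY
  have hYc : Y.card ≤ K := by
    have h1 : Y.card ≤ (S b ∪ W b).card + (S' b' ∪ W b').card :=
      card_union_le (S b ∪ W b) (S' b' ∪ W b')
    have h2 := card_union_le (S b) (W b)
    have h3 := card_union_le (S' b') (W b')
    have h4 := hWcard b hb
    have h5 := hWcard b' hb'
    omega
  have hB := hH.isBt hYc
  set B := bt G F univ Y with hBd
  have hBB1 : B ⊆ B1 := bt_anti hH subset_union_left hYc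
  have hBB2 : B ⊆ B2 := bt_anti hH subset_union_right hYc
  have hNb : Nb G univ B ⊆ S b ∪ S' b' := by
    intro v hv
    have h1 := hB.Nb_subset hv
    rw [mem_Nb] at hv
    obtain ⟨_, hvB, y, hy, hvy⟩ := hv
    rw [mem_union]
    rcases mem_union.1 h1 with h1 | h1
    · rcases mem_union.1 h1 with h1 | h1
      · exact Or.inl h1
      · exfalso
        have h2 : v ∈ Nb G univ B2 :=
          mem_Nb.2 ⟨mem_univ _, hW2 v h1, y, hBB2 hy, hvy⟩
        have h3 := hB2.Nb_subset h2
        rcases mem_union.1 h3 with h3 | h3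
        · exact Finset.disjoint_left.1 hd2 h1 h3
        · exact Finset.disjoint_left.1 (hWd b hb b' hb' (by omega)) h1 h3
    · rcases mem_union.1 h1 with h1 | h1
      · exact Or.inr h1
      · exfalso
        have h2 : v ∈ Nb G univ B1 :=
          mem_Nb.2 ⟨mem_univ _, hW1 v h1, y, hBB1 hy, hvy⟩
        have h3 := hB1.Nb_subset h2
        rcases mem_union.1 h3 with h3 | h3
        · exact Finset.disjoint_left.1 hd1 h1 h3
        · exact Finset.disjoint_left.1 (hWd b' hb' b hb (by omega)) h1 h3
  have hSS : (S b ∪ S' b').card ≤ 2 * N := by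
    have := card_union_le (S b) (S' b')
    omega
  have hNbc : (Nb G univ B).card ≤ K := (card_le_card hNb).trans (by omega)
  have hB3 := (Big.isBt hH hB.big hNbc).eq_bt
  have hB4 : bt G F univ (S b ∪ S' b') ⊆ B := by
    have := bt_anti hH hNb (by omega : (S b ∪ S' b').card ≤ K)
    rw [hB3] at this
    exact this
  obtain ⟨I, hI, hI2⟩ := hrows (S b ∪ S' b') (2 * N + 1) (by omega)
  have hWB := hC (S b ∪ S' b') (W b) hSS (hWc b hb) (by
      rw [Finset.disjoint_left]
      intro v hv h
      rcases mem_union.1 h with h | h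
      · exact Finset.disjoint_left.1 hSd h hv
      · exact Finset.disjoint_left.1 hd2 hv h)
    ⟨I, hI, by
      intro a ha
      obtain ⟨ha1, ha2, ha3⟩ := hI2 a ha
      refine ⟨ha2, ha3, ?_⟩
      obtain ⟨y, hy⟩ := List.exists_mem_of_ne_nil _ (hL.web.ne a ha2 (J b) (by omega))
      refine ⟨y, blk_mem_row.2 ⟨J b, by omega, hy⟩, ?_⟩
      apply blk_mem_wset.2
      refine ⟨0, by omega, blk_mem_col.2 (Or.inl ⟨a - 1, by omega, ?_⟩)⟩
      rw [Nat.sub_add_cancel ha1, add_zero]
      exact hy⟩
  obtain ⟨z, hz⟩ := (hWc b hb).1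
  have h1 : z ∈ B := hB4 (hWB hz)
  exact hW2 z hz (hBB2 h1)

end Pool.Agent.Helper71.BM
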